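import Mathlib

/-!
# Finitely generated subgroups of free groups are free of finite rank
-/

set_option autoImplicit false

namespace Pool.Agent.Helper81.HL

theorem finite_of_fg {X : Type*} (h : Group.FG (FreeGroup X)) : Finite X := by
  classical
  have h1 : Group.FG (FreeGroup X) := h
  obtain ⟨S, hS⟩ := h1.out
  -- the letters that occur in the generators
  let L : Finset X := S.biUnion fun w => (w.toWord.map Prod.fst).toFinset
  have h2 : (⊤ : Subgroup (FreeGroup X)) ≤ Subgroup.closure (FreeGroup.of '' (L : Set X)) := by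
    rw [← hS, Subgroup.closure_le]
    intro w hw
    have h3 : ∀ l : List (X × Bool), (∀ a ∈ l, a.1 ∈ L) →
        FreeGroup.mk l ∈ Subgroup.closure (FreeGroup.of '' (L : Set X)) := by
      intro l
      induction l with
      | nil => intro _; exact Subgroup.one_mem _
      | cons a l ih =>
        intro hl
        have h4 : FreeGroup.mk (a :: l) = FreeGroup.mk [a] * FreeGroup.mk l := by
          rw [FreeGroup.mul_mk]; rfl
        rw [h4]
        refine Subgroup.mul_mem _ ?_ (ih fun b hb => hl b (List.mem_cons_of_mem _ hb))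
        have h5 : FreeGroup.of a.1 ∈ Subgroup.closure (FreeGroup.of '' (L : Set X)) :=
          Subgroup.subset_closure ⟨a.1, hl a (List.mem_cons_self ..), rfl⟩
        obtain ⟨x, b⟩ := a
        cases b with
        | true => exact h5
        | false =>
          have h6 : FreeGroup.mk [(x, false)] = (FreeGroup.of x)⁻¹ := by
            simp [FreeGroup.of, FreeGroup.inv_mk, FreeGroup.invRev]
          rw [h6]
          exact Subgroup.inv_mem _ h5
    have h4 := h3 w.toWord (fun a ha => by
      refine Finset.mem_biUnion.2 ⟨w, hw, ?_⟩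
      exact List.mem_toFinset.2 (List.mem_map_of_mem ha))
    rwa [FreeGroup.mk_toWord] at h4
  refine Set.finite_univ_iff.1 (Set.Finite.subset L.finite_toSet ?_)
  intro x _
  by_contra hx
  have h3 : FreeGroup.of x ∈ Subgroup.closure (FreeGroup.of '' (L : Set X)) := h2 trivial
  let φ : FreeGroup X →* Multiplicative ℤ :=
    FreeGroup.lift fun y => if y = x then Multiplicative.ofAdd 1 else 1
  have h4 : Subgroup.closure (FreeGroup.of '' (L : Set X)) ≤ φ.ker := by
    rw [Subgroup.closure_le]
    rintro _ ⟨y, hy, rfl⟩
    have : y ≠ x := fun h => hx (h ▸ hy)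
    simp [φ, MonoidHom.mem_ker, this]
  have h5 : φ (FreeGroup.of x) = 1 := h4 h3
  simp [φ] at h5

theorem exists_equiv {X : Type*} {K : Subgroup (FreeGroup X)} (h : K.FG) :
    ∃ m : ℕ, Nonempty (FreeGroup (Fin m) ≃* K) := by
  have e : K ≃* FreeGroup (IsFreeGroup.Generators K) := IsFreeGroup.toFreeGroup K
  have h1 : Group.FG K := (Group.fg_iff_subgroup_fg K).2 h
  have h2 : Group.FG (FreeGroup (IsFreeGroup.Generators K)) :=
    Group.fg_of_surjective (f := e.toMonoidHom) e.surjective
  have h3 : Finite (IsFreeGroup.Generators K) := finite_of_fg h2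
  obtain ⟨m, ⟨e'⟩⟩ := Finite.exists_equiv_fin (IsFreeGroup.Generators K)
  exact ⟨m, ⟨(FreeGroup.freeGroupCongr e').symm.trans e.symm⟩⟩

end Pool.Agent.Helper81.HL
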