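import Pool.Agent.Helper72.BH.ClaimC
import Pool.Agent.Helper79.HL.Ramsey
import Pool.Agent.Helper81.HL.FreeRank

/-!
# The bounded hull lemma in a free group (assembly)
-/

set_option autoImplicit false

namespace Pool.Agent.Helper81.HL

open FreeGroup (of)
open Pool.Agent.Helper22.OR (Gen)
open Pool.Agent.Helper72.BH
open Pool.Agent.Helper79.HL (IndepOver ramsey)

theorem gen_sup {G : Type} [Group G] {j k : ℕ} {A B : Subgroup G} (hA : Gen j A) (hB : Gen k B) :
    Gen (j + k) (A ⊔ B) := by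
  obtain ⟨a, rfl⟩ := hA
  obtain ⟨b, rfl⟩ := hB
  refine ⟨Fin.append a b, ?_⟩
  rw [← Subgroup.closure_union]
  congr 1
  ext x
  constructor
  · rintro ⟨i, rfl⟩
    induction i using Fin.addCases with
    | left i => exact Or.inl ⟨i, by simp⟩
    | right i => exact Or.inr ⟨i, by simp⟩
  · rintro (⟨i, rfl⟩ | ⟨i, rfl⟩)
    · exact ⟨Fin.castAdd k i, by simp⟩
    · exact ⟨Fin.natAdd j i, by simp⟩

theorem eq_bot_of_filled_bot {G : Type} [Group G] {k : ℕ} {A : Subgroup G}
    (h : Filled k (⊥ : Subgroup G) A) : A = ⊥ := by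
  obtain ⟨-, ⟨g, hg⟩, h3⟩ := h
  cases k with
  | zero =>
    rw [← hg]
    have h1 : Set.range g = ∅ := Set.range_eq_empty g
    rw [h1, Subgroup.closure_empty]
  | succ k =>
    exfalso
    refine h3 k (Subgroup.closure (Set.range (Fin.init g))) (g (Fin.last k)) rfl ⟨_, rfl⟩ ?_ bot_le
    rw [← hg, ← Subgroup.closure_union]
    congr 1
    ext x
    constructor
    · rintro (⟨i, rfl⟩ | hx)
      · exact ⟨i.castSucc, rfl⟩
      · exact ⟨Fin.last k, hx.symm⟩
    · rintro ⟨i, rfl⟩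
      induction i using Fin.lastCases with
      | last => exact Or.inr rfl
      | cast i => exact Or.inl ⟨i, rfl⟩

theorem bhl_free_of (hMN : ∀ R : ℕ, ∃ (D : Type) (_ : DivisionRing D), Nonempty (MN R D))
    (N : ℕ) : ∃ f : ℕ, ∀ (R : ℕ) (H : Subgroup (FreeGroup (Fin R))) (s : ℕ)
    (A : Fin s → Subgroup (FreeGroup (Fin R))), (∀ i, FilledLe N H (A i)) → (⨆ i, A i) = ⊤ →
    R ≤ f := by
  obtain ⟨f, hf⟩ := ramsey.{0, 0, 0} (fun ρ => 6 * ρ + 2) N
  refine ⟨f, fun R H s A hA htop => ?_⟩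
  by_contra hlt
  push Not at hlt
  obtain ⟨D, iD, ⟨M⟩⟩ := hMN R
  set W : Fin s → Submodule D (Fin R → D) := fun i => M.V (A i : Set (FreeGroup (Fin R))) with hW
  have hVsup : ∀ T : Finset (Fin s),
      M.V ((⨆ i : {i // i ∈ T}, A i.1 : Subgroup (FreeGroup (Fin R))) : Set (FreeGroup (Fin R))) =
        T.sup W := by
    intro T
    rw [M.V_iSup, Finset.sup_eq_iSup, iSup_subtype']
  have hsup : (Finset.univ : Finset (Fin s)).sup W = ⊤ := by
    rw [Finset.sup_univ_eq_iSup, ← M.V_iSup, htop, M.V_top]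
  obtain ⟨T, -, hTn, S, -, hcard, hind, hnot⟩ := hf D (Fin R → D) (Fin s) W Finset.univ
    (fun i => inferInstance)
    (fun i _ => by
      obtain ⟨k, hk, hki⟩ := hA i
      exact (M.finrank_V_le hki.gen).trans hk)
    (by rw [hsup, finrank_top, Module.finrank_fin_fun]; exact hlt)
  -- the groups
  set J0 : Subgroup (FreeGroup (Fin R)) := ⨆ i : {i // i ∈ T}, A i.1 with hJ0
  set J : Subgroup (FreeGroup (Fin R)) := M.cl (J0 : Set (FreeGroup (Fin R))) with hJ
  have hVJ : M.V (J : Set (FreeGroup (Fin R))) = T.sup W := by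
    rw [hJ, M.V_cl, hVsup]
  have hJc : M.Closed J := M.closed_cl _
  set B : Fin s → Subgroup (FreeGroup (Fin R)) := fun i =>
    M.cl ((J ⊔ A i : Subgroup (FreeGroup (Fin R))) : Set (FreeGroup (Fin R))) with hB
  have hVB : ∀ i, M.V (B i : Set (FreeGroup (Fin R))) = T.sup W ⊔ W i := by
    intro i
    rw [hB]
    change M.V (M.cl _ : Set (FreeGroup (Fin R))) = _
    rw [M.V_cl, M.V_sup, hVJ]
  obtain ⟨i0, hi0⟩ := hTn
  have hHJ : H ≤ J := by
    obtain ⟨k, -, hk⟩ := hA i0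
    exact hk.le.trans ((le_iSup (fun i : {i // i ∈ T} => A i.1) ⟨i0, hi0⟩).trans (M.le_cl J0))
  have hne : J ≠ ⊥ := by
    intro hbot
    have hH : H = ⊥ := le_bot_iff.1 (hbot ▸ hHJ)
    have hAb : ∀ i, A i = ⊥ := by
      intro i
      obtain ⟨k, -, hk⟩ := hA i
      rw [hH] at hk
      exact eq_bot_of_filled_bot hk
    have h1 : (⊤ : Subgroup (FreeGroup (Fin R))) = ⊥ := by
      rw [← htop]
      simp [hAb]
    have h2 := M.finrank_V_top
    rw [h1, (M.V_eq_bot_iff ⊥).2 rfl, finrank_bot] at h2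
    omega
  have hmain := M.claimC (J := J) hJc hne (ι := Fin s) (B := B) (I := S)
    (fun i => le_sup_left.trans (M.le_cl _)) (fun i _ => M.closed_cl _) ?_ ?_ ?_
  · rw [hVJ] at hmain
    omega
  · -- independence
    intro w hw hsum i hi
    rw [hVJ]
    refine hind w (fun i hi => ?_) ?_ i hi
    · have h1 := hw i hi
      rw [hVB, sup_comm] at h1
      exact h1
    · rw [hVJ] at hsum
      exact hsum
  · -- filled
    intro i _
    obtain ⟨k, -, hk⟩ := hA i
    have hJfg : Gen (Module.finrank D (M.V (J : Set (FreeGroup (Fin R))))) J := M.closed_gen hJc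
    have hfg : (J ⊔ A i : Subgroup (FreeGroup (Fin R))).FG := (gen_sup hJfg hk.gen).fg
    obtain ⟨m, ⟨φ⟩⟩ := exists_equiv hfg
    have h1 : Filled m J (J ⊔ A i) := filled_join φ (ι := Unit) (fun _ => A i) (fun _ => H)
      (fun _ => hHJ) (fun _ => ⟨k, hk⟩) (by rw [iSup_const])
    have h2 := M.filled_cl (J ⊔ A i)
    obtain ⟨φ', -⟩ := M.closed_basis (M.closed_cl ((J ⊔ A i : Subgroup (FreeGroup (Fin R))) :
      Set (FreeGroup (Fin R))))
    exact ⟨_, filled_trans φ' h1 h2⟩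
  · -- dimension
    intro i hi
    rw [hVJ, hVB]
    refine Submodule.finrank_lt_finrank_of_lt (lt_of_le_of_ne le_sup_left ?_)
    intro heq
    exact hnot i hi (heq ▸ le_sup_right)

end Pool.Agent.Helper81.HL
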